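import Mathlib
import Pool.Agent.Q3.BadA.Torus

/-!
# MP_f446af_nt: a one-dimensional coset charged by `Bad_A` but not contained in it
-/

set_option autoImplicit false

namespace Pool.Agent.Results.MP_f446af_nt.CosetPartlyBad

open Filter Topology MeasureTheory

/-- The point `A q` of the torus `𝕋ᵐ = (ℝ/ℤ)ᵐ`, for an integer vector `q`. -/
noncomputable def pt {m n : ℕ} (A : Matrix (Fin m) (Fin n) ℝ) (q : Fin n → ℤ) :
    Fin m → UnitAddCircle := fun i => ((∑ j, A i j * (q j : ℝ) : ℝ) : UnitAddCircle)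

/-- The set `Bad_A` of the `η` with `liminf ‖q‖^(n/m) ⟨A q - η⟩ > 0` as `‖q‖ → ∞`; all norms are sup
norms, and the norm of a point of `ℝ/ℤ` is its distance to `0`. -/
def Bad {m n : ℕ} (A : Matrix (Fin m) (Fin n) ℝ) : Set (Fin m → UnitAddCircle) :=
  {η | 0 < liminf (fun q : Fin n → ℤ => ((‖q‖ ^ ((n : ℝ) / m) * ‖pt A q - η‖ : ℝ) : EReal)) cofinite}

/-- Singular matrices. -/
def Singular {m n : ℕ} (A : Matrix (Fin m) (Fin n) ℝ) : Prop :=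
  ∀ ε : ℝ, 0 < ε → ∃ T₀ : ℝ, ∀ T : ℝ, T₀ ≤ T → ∃ q : Fin n → ℤ, 0 < ‖q‖ ∧ ‖q‖ ≤ T ∧
    ‖pt A q‖ ≤ ε * T ^ (-((n : ℝ) / m))

/-- `H` is a subtorus of dimension `k` of `𝕋ᵐ`: the image of an injective continuous homomorphism of
`𝕋ᵏ`. -/
def IsSubtorus {m : ℕ} (k : ℕ) (H : AddSubgroup (Fin m → UnitAddCircle)) : Prop :=
  ∃ f : (Fin k → UnitAddCircle) →+ (Fin m → UnitAddCircle), Continuous f ∧ Function.Injective f ∧
    f.range = H

/-- `μ` is the Haar probability measure on the coset `η₀ + H`. -/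
def IsHaarCoset {m : ℕ} (H : AddSubgroup (Fin m → UnitAddCircle)) (η₀ : Fin m → UnitAddCircle)
    (μ : Measure (Fin m → UnitAddCircle)) : Prop :=
  IsProbabilityMeasure μ ∧ μ {v | v - η₀ ∉ H} = 0 ∧ ∀ h ∈ H, μ.map (fun v => h + v) = μ

/-- There are a non-singular real `2 × 1` matrix `A`, a one-dimensional subtorus `H` of `𝕋²` and a
coset `η₀ + H` with Haar probability measure `μ` such that `0 < μ(Bad_A) < 1`; in particular
`μ(Bad_A) > 0` but the support `η₀ + H` of `μ` is not contained in `Bad_A`. -/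
theorem result : ∃ (A : Matrix (Fin 2) (Fin 1) ℝ) (H : AddSubgroup (Fin 2 → UnitAddCircle))
    (η₀ : Fin 2 → UnitAddCircle) (μ : Measure (Fin 2 → UnitAddCircle)),
    ¬ Singular A ∧ IsSubtorus 1 H ∧ IsHaarCoset H η₀ μ ∧ 0 < μ (Bad A) ∧ μ (Bad A) < 1 ∧
    ¬ ({v | v - η₀ ∈ H} ⊆ Bad A) := by
  obtain ⟨α, α₂, x, h1, h2, ε, hε, h3⟩ := Q3.BadA.core
  refine ⟨!![α; α₂], Q3.BadA.incl.range, ![(x : UnitAddCircle), 0], Q3.BadA.mu x, ?_,
    Q3.BadA.incl_range, ⟨Q3.BadA.mu_prob _, Q3.BadA.mu_supp _, Q3.BadA.mu_inv _⟩, ?_, ?_, ?_⟩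
  · intro hs
    obtain ⟨T₀, hT₀⟩ := hs ε hε
    obtain ⟨T, hT, hTpos, hq⟩ := h3 ⌈T₀⌉₊
    obtain ⟨q, hq1, hq2, hq3⟩ := hT₀ (T : ℝ) ((Nat.le_ceil T₀).trans (by exact_mod_cast hT))
    have hTr : (0 : ℝ) < T := by exact_mod_cast hTpos
    rw [Q3.BadA.norm_fin_one] at hq1 hq2
    obtain ⟨a, b, hab⟩ := Q3.BadA.pt_norm_eq α α₂ 0 0 q
    have h0 : (![((0 : ℝ) : UnitAddCircle), ((0 : ℝ) : UnitAddCircle)] : Fin 2 → UnitAddCircle) = 0 := by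
      funext i; fin_cases i <;> simp
    rw [h0, sub_zero, sub_zero, sub_zero] at hab
    have h4 := hq (q 0) a b (by exact_mod_cast hq1) (by exact_mod_cast hq2)
    have h5 : ‖pt !![α; α₂] q‖ = max |(q 0 : ℝ) * α - a| |(q 0 : ℝ) * α₂ - b| := hab
    rw [← h5] at h4
    have h6 : (T : ℝ) ^ (-(((1 : ℕ) : ℝ) / ((2 : ℕ) : ℝ))) = (√(T : ℝ))⁻¹ := by
      rw [Real.rpow_neg hTr.le, Real.sqrt_eq_rpow]; norm_num
    rw [h6] at hq3
    have h7 : 0 < √(T : ℝ) := Real.sqrt_pos.mpr hTr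
    have h8 : √(T : ℝ) * ‖pt !![α; α₂] q‖ ≤ ε := by
      calc √(T : ℝ) * ‖pt !![α; α₂] q‖ ≤ √(T : ℝ) * (ε * (√(T : ℝ))⁻¹) := by gcongr
        _ = ε := by field_simp
    linarith
  · apply Q3.BadA.mu_bad_pos
    intro y hy
    obtain ⟨c, hc, Q, hQ⟩ := h1 y hy
    exact Q3.BadA.mem_bad α α₂ x y c hc Q hQ
  · apply Q3.BadA.mu_bad_lt
    intro y hy
    exact Q3.BadA.not_mem_bad α α₂ x y (h2 y hy)
  · intro hsub
    refine Q3.BadA.not_mem_bad α α₂ x 0 (h2 0 ⟨le_rfl, by norm_num⟩) (hsub ?_)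
    change _ - _ ∈ Q3.BadA.incl.range
    rw [Q3.BadA.mem_range]
    simp

end Pool.Agent.Results.MP_f446af_nt.CosetPartlyBad
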